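import Mathlib
import Pool.Agent.U518.WS.N
import Pool.Agent.U518.WS.O

/-!
# `k + 1` shifted `k`-th powers and almost all integers

In Waring's problem with shifts one asks for the representation of integers `n` in the form
`⌊(x₁ + θ₁)^k + … + (x_s + θ_s)^k⌋`. We prove that for almost all shifts `θ ∈ ℝ^(k+1)` the `k + 1`
summands represent all integers `n ≤ X` with at most `X^(1 - 1/k + ε)` exceptions, and that with `k`
summands a positive proportion of the integers is missed, for all shifts.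
-/

set_option autoImplicit false

namespace Pool.Agent.Results.MP_45c923_nt.AlmostAllIntegersShifts

open MeasureTheory Filter

/-- `n` is the integer part of a sum of `s` shifted `k`-th powers, with positive bases -/
def Rep {s : ℕ} (k : ℕ) (θ : Fin s → ℝ) (n : ℕ) : Prop :=
  ∃ x : Fin s → ℕ, (∀ i, 0 < (x i : ℝ) + θ i) ∧ ⌊∑ i, ((x i : ℝ) + θ i) ^ k⌋ = (n : ℤ)

open Classical in
/-- the integers `n ≤ X` which are not represented -/
noncomputable def missing {s : ℕ} (k : ℕ) (θ : Fin s → ℝ) (X : ℕ) : Finset ℕ :=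
  (Finset.range (X + 1)).filter fun n => ¬ Rep k θ n

/-- `N` is approximated within `δ` by at least `m` sums of `k + 1` shifted `k`-th powers with positive bases -/
def Many (k : ℕ) (θ : Fin (k + 1) → ℝ) (N δ m : ℝ) : Prop :=
  ∃ A : Finset (Fin (k + 1) → ℕ),
    (∀ x ∈ A, (∀ i, 0 < (x i : ℝ) + θ i) ∧ |∑ i, ((x i : ℝ) + θ i) ^ k - N| < δ) ∧ m ≤ (A.card : ℝ)

/-- Let `k ≥ 2`. (1) For almost all `θ ∈ ℝ^(k+1)`, for all `ε > 0` and all large `X`, all but at most
`X^(1 - 1/k + ε)` of the integers `n ≤ X` are of the form `⌊(x₁ + θ₁)^k + … + (x_{k+1} + θ_{k+1})^k⌋`.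
(2) The number `k + 1` is best possible: there is `c > 0` such that for all `θ ∈ ℝ^k` and all large `X`
at least `c X` integers `n ≤ X` are not of the form `⌊(x₁ + θ₁)^k + … + (x_k + θ_k)^k⌋`. (3) For all
`τ ≥ 0` there is `c > 0` such that for almost all `θ ∈ ℝ^(k+1)`, for all `ε > 0` and all large `X`, the
set of the real numbers `N ∈ (0, X]` for which there are less than `c N^(1/k - τ)` sums
`(x₁ + θ₁)^k + … + (x_{k+1} + θ_{k+1})^k` (counted with multiplicity) within `N^(-τ)` of `N` has measure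
at most `X^(1 - 1/k + τ + ε)`. -/
theorem result (k : ℕ) (hk : 2 ≤ k) :
    (∀ᵐ θ : Fin (k + 1) → ℝ, ∀ ε : ℝ, 0 < ε → ∀ᶠ X : ℕ in atTop,
      ((missing k θ X).card : ℝ) ≤ (X : ℝ) ^ (1 - 1 / (k : ℝ) + ε)) ∧
    (∃ c : ℝ, 0 < c ∧ ∀ θ : Fin k → ℝ, ∀ᶠ X : ℕ in atTop, c * X ≤ ((missing k θ X).card : ℝ)) ∧
    ∀ τ : ℝ, 0 ≤ τ → ∃ c : ℝ, 0 < c ∧ ∀ᵐ θ : Fin (k + 1) → ℝ, ∀ ε : ℝ, 0 < ε → ∀ᶠ X : ℝ in atTop,
      volume {N : ℝ | 0 < N ∧ N ≤ X ∧ ¬ Many k θ N (N ^ (-τ)) (c * N ^ (1 / (k : ℝ) - τ))} ≤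
        ENNReal.ofReal (X ^ (1 - 1 / (k : ℝ) + τ + ε)) := by
  classical
  refine ⟨?_, ?_, fun τ hτ => ?_⟩
  · filter_upwards [Pool.Agent.U518.WS.floor_form2 k hk] with θ hθ ε hε
    filter_upwards [hθ ε hε] with X hX
    refine le_trans (le_of_eq ?_) hX
    unfold missing Rep
    norm_cast
  · obtain ⟨c, hc, h⟩ := Pool.Agent.U518.WS.sharp k hk
    refine ⟨1 - c, by linarith, fun θ => ?_⟩
    filter_upwards [h θ] with X hX
    have h1 := Finset.card_filter_add_card_filter_not (s := Finset.range (X + 1)) (fun n : ℕ => Rep k θ n)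
    rw [Finset.card_range] at h1
    have h2 : (((Finset.range (X + 1)).filter fun n : ℕ => Rep k θ n).card : ℝ) ≤ c * X := by
      refine le_trans (le_of_eq ?_) hX
      unfold Rep
      norm_cast
    have h3 : ((missing k θ X).card : ℝ) =
        (((Finset.range (X + 1)).filter fun n : ℕ => ¬ Rep k θ n).card : ℝ) := by
      unfold missing
      norm_cast
    rw [h3]
    have h4 : (((Finset.range (X + 1)).filter fun n : ℕ => Rep k θ n).card : ℝ) +
        (((Finset.range (X + 1)).filter fun n : ℕ => ¬ Rep k θ n).card : ℝ) = X + 1 := by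
      exact_mod_cast h1
    linarith
  · refine ⟨Pool.Agent.U518.WS.cfin k τ, Pool.Agent.U518.WS.cfin_pos k (by omega) τ, ?_⟩
    filter_upwards [Pool.Agent.U518.WS.main2 k hk τ 1 hτ one_pos le_rfl] with θ hθ ε hε
    filter_upwards [hθ ε hε] with X hX
    refine le_trans (measure_mono ?_) hX
    rintro N ⟨hN0, hNX, hbad⟩
    refine ⟨hN0, hNX, ?_⟩
    rintro ⟨A, hA1, hA2⟩
    apply hbad
    rw [one_mul] at hA1 hA2
    refine ⟨A, hA1, le_trans (le_of_eq ?_) hA2⟩
    rw [mul_assoc, ← Real.rpow_add hN0]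
    congr 2
    ring

end Pool.Agent.Results.MP_45c923_nt.AlmostAllIntegersShifts
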