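import Mathlib
import Pool.Agent.U131.MW.L

/-!
# The metric analogue of Waring's function `G(k)` is `k + O(log k)`

For natural numbers `k` and `s` consider the integer parts of the sums
`α₁ x₁^k + … + α_s x_s^k` with natural numbers `x_i` and fixed positive real coefficients `α_i`
(Waring's problem is the case `α_i = 1`). We prove that `k + ⌊log₂ k⌋ + 2` summands give every large
integer for almost all coefficient vectors, while `k` summands are not enough.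
-/

set_option autoImplicit false

namespace Pool.Agent.Results.MP_45c923_nt.MetricWaring

open MeasureTheory Filter

/-- The metric analogue of Waring's function: the least `s` such that for Lebesgue-almost every vector
`(α_1, …, α_s)` of positive reals every sufficiently large natural number is the integer part of
`α_1 x_1^k + … + α_s x_s^k` with natural numbers `x_i` (zero allowed). -/
noncomputable def metricG (k : ℕ) : ℕ :=
  sInf {s : ℕ | ∀ᵐ α : Fin s → ℝ, (∀ i, 0 < α i) → ∀ᶠ n : ℕ in atTop,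
    ∃ x : Fin s → ℕ, ⌊∑ i, α i * (x i : ℝ) ^ k⌋ = (n : ℤ)}

/-- **Metric Waring problem.**
1. `k + 1 ≤ metricG k ≤ k + ⌊log₂ k⌋ + 2` for every `k ≥ 1`.
2. For almost every vector of `k + ⌊log₂ k⌋ + 2` positive reals `α_i` every large natural number is the
   integer part of `∑ α_i x_i^k` with integers `x_i ≥ 1`.
3. For `s ≤ k` this fails for every coefficient vector with all `α_i ≥ 2`, even with `x_i ≥ 0`.
4. Let `1 ≤ k ≤ J < 2^t`, `τ ≥ 0`, `1 + τ < 2^t ((J + 1)/k - 1 - τ)`, `s = J + 1 + t`. Let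
   `A_0, …, A_{s-1}` be sets of natural numbers such that `A_i` with `i ≤ J` meets every interval
   `[y, y + C y^(1-1/k)]` and `A_i` with `i > J` meets every interval `[y, R y]`, `y ≥ 1`, for some
   constants. Then for almost every vector of `s` positive reals `α_i`, for every large real `M` there
   are `a_i ∈ A_i` with `|∑ α_i a_i - M| < M^(-τ)`.
5. For `k`-th powers and every vector of `s` positive reals the conclusion of 4 fails
   when `τ > s/k - 1`. -/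
theorem result :
    (∀ k : ℕ, 1 ≤ k → k + 1 ≤ metricG k ∧ metricG k ≤ k + Nat.log 2 k + 2) ∧
    (∀ k : ℕ, 1 ≤ k → ∀ᵐ α : Fin (k + Nat.log 2 k + 2) → ℝ, (∀ i, 0 < α i) → ∀ᶠ n : ℕ in atTop,
      ∃ x : Fin (k + Nat.log 2 k + 2) → ℕ, (∀ i, 1 ≤ x i) ∧
        ⌊∑ i, α i * (x i : ℝ) ^ k⌋ = (n : ℤ)) ∧
    (∀ k s : ℕ, 1 ≤ k → s ≤ k → ∀ α : Fin s → ℝ, (∀ i, 2 ≤ α i) →
      ¬ ∀ᶠ n : ℕ in atTop, ∃ x : Fin s → ℕ, ⌊∑ i, α i * (x i : ℝ) ^ k⌋ = (n : ℤ)) ∧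
    (∀ (k J t : ℕ) (τ : ℝ), 1 ≤ k → k ≤ J → J < 2 ^ t → 0 ≤ τ →
      1 + τ < 2 ^ t * (((J : ℝ) + 1) / (k : ℝ) - 1 - τ) →
      ∀ A : Fin (J + 1 + t) → Set ℕ,
      (∀ i : Fin (J + 1 + t), i.val ≤ J → ∃ C : ℝ, ∀ y : ℝ, 1 ≤ y →
        ∃ a ∈ A i, y ≤ (a : ℝ) ∧ (a : ℝ) ≤ y + C * y ^ (1 - 1 / (k : ℝ))) →
      (∀ i : Fin (J + 1 + t), J < i.val → ∃ R : ℝ, ∀ y : ℝ, 1 ≤ y →
        ∃ a ∈ A i, y ≤ (a : ℝ) ∧ (a : ℝ) ≤ R * y) →
      ∀ᵐ α : Fin (J + 1 + t) → ℝ, (∀ i, 0 < α i) → ∀ᶠ M : ℝ in atTop,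
        ∃ a : Fin (J + 1 + t) → ℕ, (∀ i, a i ∈ A i) ∧ |∑ i, α i * a i - M| < M ^ (-τ)) ∧
    (∀ k s : ℕ, 1 ≤ k → ∀ α : Fin s → ℝ, (∀ i, 0 < α i) → ∀ τ : ℝ, 0 ≤ τ →
      (s : ℝ) / (k : ℝ) - 1 < τ →
      ¬ ∀ᶠ M : ℝ in atTop, ∃ x : Fin s → ℕ, |∑ i, α i * (x i : ℝ) ^ k - M| < M ^ (-τ)) := by
  refine ⟨fun k hk => ?_, fun k hk => U131.MW.metric_floor' hk,
    fun k s hk hs α hα => U131.MW.lower hk hs α hα,
    fun k J t τ hk hkJ hJt hτ ht A hG hR => U131.MW.metric hk hkJ hJt hτ ht A hG hR,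
    fun k s hk α hα τ hτ hs => U131.MW.lower_exp hk α hα hτ hs⟩
  have hmem : k + Nat.log 2 k + 2 ∈ {s : ℕ | ∀ᵐ α : Fin s → ℝ, (∀ i, 0 < α i) →
      ∀ᶠ n : ℕ in atTop, ∃ x : Fin s → ℕ, ⌊∑ i, α i * (x i : ℝ) ^ k⌋ = (n : ℤ)} :=
    U131.MW.metric_floor hk
  refine ⟨?_, Nat.sInf_le hmem⟩
  refine le_csInf ⟨_, hmem⟩ fun s hs => ?_
  by_contra hcon
  obtain ⟨α, hα, hP⟩ := U131.MW.exists_big hs
  exact U131.MW.lower hk (by omega) α hα (hP fun i => by linarith [hα i])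

end Pool.Agent.Results.MP_45c923_nt.MetricWaring
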