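import Pool.Agent.U416.WR.Local
import Pool.Agent.U416.WR.Dens

/-! # `G(k) = O(k)` is a statement on positive density

Let `A_s(k)` be the set of the sums of `s` `k`-th powers of natural numbers. We prove, for all `k ≥ 1` and `s`:
if `A_s(k)` has positive lower density, then `A_{s + 4k + 1}(k)` has density one and `A_{2s + 4k + 1}(k)` contains all
large integers. Hence `G(k) = O(k)` if and only if `A_{Ck}(k)` has density one for all `k` (some `C`), if and only if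
`A_{Ck}(k)` has positive lower density for all `k` (some `C`).
-/

set_option autoImplicit false

namespace Pool.Agent.Results.MP_45c923_nt.PositiveDensity

open Finset Filter Topology Pool.Agent.U416.WR

/-- `n` is a sum of `m` `k`-th powers of natural numbers (zero allowed). -/
def IsSum (k m n : ℕ) : Prop := ∃ x : Fin m → ℕ, n = ∑ i, x i ^ k

/-- Every large number is a sum of `m` `k`-th powers: `G(k) ≤ m`. -/
def AllLarge (k m : ℕ) : Prop := ∃ n₀ : ℕ, ∀ n : ℕ, n₀ ≤ n → IsSum k m n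

/-- The sums of `m` `k`-th powers have density one: for every `ε > 0` all but at most `ε n` of the numbers below `n`
are such sums, for all large `n`. -/
def AlmostAll (k m : ℕ) : Prop :=
  ∀ ε : ℝ, 0 < ε → ∃ n₀ : ℕ, ∀ n : ℕ, n₀ ≤ n → (({j : ℕ | j < n ∧ ¬ IsSum k m j}.ncard : ℕ) : ℝ) ≤ ε * n

/-- The sums of `m` `k`-th powers have positive lower density. -/
def PosDensity (k m : ℕ) : Prop :=
  ∃ c : ℝ, 0 < c ∧ ∃ n₀ : ℕ, ∀ n : ℕ, n₀ ≤ n → c * n ≤ (({j : ℕ | j < n ∧ IsSum k m j}.ncard : ℕ) : ℝ)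

lemma ld_of {k m : ℕ} {c : ℝ} {n₀ : ℕ}
    (h : ∀ n : ℕ, n₀ ≤ n → c * n ≤ (({j : ℕ | j < n ∧ IsSum k m j}.ncard : ℕ) : ℝ)) : LD c {n | IsSum k m n} := by
  filter_upwards [eventually_ge_atTop n₀] with n hn
  have h1 : ({n | IsSum k m n} ∩ Set.Iio n : Set ℕ) = {j : ℕ | j < n ∧ IsSum k m j} := by
    ext j
    simp [and_comm]
  rw [h1]
  exact h n hn

lemma isSum_add {k m m' n n' : ℕ} (h : IsSum k m n) (h' : IsSum k m' n') : IsSum k (m + m') (n + n') := by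
  obtain ⟨x, rfl⟩ := h
  obtain ⟨y, rfl⟩ := h'
  refine ⟨Fin.append x y, ?_⟩
  rw [Fin.sum_univ_add]
  simp

lemma isSum_mono {k m m' n : ℕ} (hk : 1 ≤ k) (hm : m ≤ m') (h : IsSum k m n) : IsSum k m' n := by
  obtain ⟨d, rfl⟩ := Nat.exists_eq_add_of_le hm
  have h0 : IsSum k d 0 := ⟨fun _ => 0, by simp [zero_pow (show k ≠ 0 by omega)]⟩
  simpa using isSum_add h h0

lemma all_pos {k m : ℕ} (h : AllLarge k m) : PosDensity k m := by
  obtain ⟨n₀, h⟩ := h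
  refine ⟨1 / 2, by norm_num, 2 * n₀, fun n hn => ?_⟩
  have h1 : Set.Ico n₀ n ⊆ {j : ℕ | j < n ∧ IsSum k m j} := fun j hj => ⟨hj.2, h j hj.1⟩
  have hfin : {j : ℕ | j < n ∧ IsSum k m j}.Finite := (Set.finite_Iio n).subset fun j hj => hj.1
  have h2 : n - n₀ ≤ {j : ℕ | j < n ∧ IsSum k m j}.ncard := by
    have h3 := Set.ncard_le_ncard h1 hfin
    rwa [← Finset.coe_Ico, Set.ncard_coe_finset, Nat.card_Ico] at h3
  have h3 : ((n - n₀ : ℕ) : ℝ) ≤ ({j : ℕ | j < n ∧ IsSum k m j}.ncard : ℝ) := by exact_mod_cast h2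
  rw [Nat.cast_sub (by omega)] at h3
  have h4 : (2 : ℝ) * n₀ ≤ n := by exact_mod_cast hn
  linarith

lemma all_almost {k m : ℕ} (h : AllLarge k m) : AlmostAll k m := by
  obtain ⟨n₀, h⟩ := h
  intro ε hε
  obtain ⟨n₁, hn₁⟩ := exists_nat_gt ((n₀ : ℝ) / ε)
  refine ⟨n₁, fun n hn => ?_⟩
  have h1 : {j : ℕ | j < n ∧ ¬ IsSum k m j} ⊆ Set.Iio n₀ := by
    intro j hj
    by_contra hcon
    exact hj.2 (h j (not_lt.1 hcon))
  have h2 : {j : ℕ | j < n ∧ ¬ IsSum k m j}.ncard ≤ n₀ := by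
    have h3 := Set.ncard_le_ncard h1 (Set.finite_Iio n₀)
    rwa [← Finset.coe_Iio, Set.ncard_coe_finset, Nat.card_Iio] at h3
  have h3 : (n₀ : ℝ) / ε < n := lt_of_lt_of_le hn₁ (by exact_mod_cast hn)
  rw [div_lt_iff₀ hε] at h3
  have h4 : (({j : ℕ | j < n ∧ ¬ IsSum k m j}.ncard : ℕ) : ℝ) ≤ n₀ := by exact_mod_cast h2
  linarith

lemma almost_pos {k m : ℕ} (h : AlmostAll k m) : PosDensity k m := by
  obtain ⟨n₀, h⟩ := h (1 / 2) (by norm_num)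
  refine ⟨1 / 2, by norm_num, n₀, fun n hn => ?_⟩
  have h1 := h n hn
  have hf1 : {j : ℕ | j < n ∧ ¬ IsSum k m j}.Finite := (Set.finite_Iio n).subset fun j hj => hj.1
  have hf2 : {j : ℕ | j < n ∧ IsSum k m j}.Finite := (Set.finite_Iio n).subset fun j hj => hj.1
  have h2 : n ≤ {j : ℕ | j < n ∧ ¬ IsSum k m j}.ncard + {j : ℕ | j < n ∧ IsSum k m j}.ncard := by
    have h3 : Set.Iio n ⊆ {j : ℕ | j < n ∧ ¬ IsSum k m j} ∪ {j : ℕ | j < n ∧ IsSum k m j} := by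
      intro j hj
      by_cases hs : IsSum k m j
      · exact Or.inr ⟨hj, hs⟩
      · exact Or.inl ⟨hj, hs⟩
    have h4 := Set.ncard_le_ncard h3 (hf1.union hf2)
    rw [← Finset.coe_Iio, Set.ncard_coe_finset, Nat.card_Iio] at h4
    exact h4.trans (Set.ncard_union_le _ _)
  have h3 : (n : ℝ) ≤ ({j : ℕ | j < n ∧ ¬ IsSum k m j}.ncard : ℝ) + ({j : ℕ | j < n ∧ IsSum k m j}.ncard : ℝ) := by
    exact_mod_cast h2
  linarith

/-- positive lower density, `4 k + 1` more powers: density one -/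
lemma pos_almost {k s : ℕ} (hk : 1 ≤ k) (h : PosDensity k s) : AlmostAll k (s + (4 * k + 1)) := by
  classical
  obtain ⟨c, hc, n₀, h⟩ := h
  intro ε hε
  obtain ⟨n₁, hn₁⟩ := eventually_atTop.1 (dens hk (loc_four hk) hc (ld_of h) (η := min 1 ε)
    (lt_min one_pos hε) (min_le_left _ _))
  refine ⟨n₁, fun n hn => ?_⟩
  have h1 := hn₁ n hn
  have h2 : {j : ℕ | j < n ∧ ¬ IsSum k (s + (4 * k + 1)) j} ⊆
      (((range n).filter (· ∉ plus {n | IsSum k s n} k (4 * k + 1)) : Finset ℕ) : Set ℕ) := by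
    rintro j ⟨hj, hns⟩
    rw [mem_coe, mem_filter, mem_range]
    refine ⟨hj, ?_⟩
    rintro ⟨b, hb, x, rfl⟩
    exact hns (isSum_add hb ⟨x, rfl⟩)
  have h3 := Set.ncard_le_ncard h2 (Finset.finite_toSet _)
  rw [Set.ncard_coe_finset] at h3
  have h4 : (({j : ℕ | j < n ∧ ¬ IsSum k (s + (4 * k + 1)) j}.ncard : ℕ) : ℝ) ≤
      (#((range n).filter (· ∉ plus {n | IsSum k s n} k (4 * k + 1))) : ℝ) := by exact_mod_cast h3
  calc _ ≤ _ := h4
    _ ≤ min 1 ε * n := h1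
    _ ≤ ε * n := mul_le_mul_of_nonneg_right (min_le_right _ _) (Nat.cast_nonneg _)

/-- positive lower density: twice as many powers and `4 k + 1` more represent all large numbers -/
lemma pos_all {k s : ℕ} (hk : 1 ≤ k) (h : PosDensity k s) : AllLarge k (2 * s + 4 * k + 1) := by
  obtain ⟨c, hc, n₀, h⟩ := h
  obtain ⟨n₁, hn₁⟩ := eventually_atTop.1 (two hk (loc_four hk) hc hc (ld_of h) (ld_of h))
  refine ⟨n₁, fun n hn => ?_⟩
  obtain ⟨b₁, hb₁, b₂, hb₂, x, hx⟩ := hn₁ n hn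
  have h1 := isSum_add (isSum_add (show IsSum k s b₁ from hb₁) (show IsSum k s b₂ from hb₂))
    (⟨x, rfl⟩ : IsSum k (4 * k + 1) (∑ i, x i ^ k))
  rw [← hx] at h1
  have e : 2 * s + 4 * k + 1 = s + s + (4 * k + 1) := by ring
  rw [e]
  exact h1

/-- **Positive density, density one and all large numbers.** -/
theorem result :
    (∀ k : ℕ, 1 ≤ k → ∀ s : ℕ, PosDensity k s → AlmostAll k (s + (4 * k + 1)) ∧ AllLarge k (2 * s + 4 * k + 1)) ∧
    ((∃ C : ℕ, ∀ k : ℕ, 2 ≤ k → ∃ m : ℕ, m ≤ C * k ∧ AllLarge k m) ↔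
      (∃ C : ℕ, ∀ k : ℕ, 2 ≤ k → ∃ m : ℕ, m ≤ C * k ∧ AlmostAll k m)) ∧
    ((∃ C : ℕ, ∀ k : ℕ, 2 ≤ k → ∃ m : ℕ, m ≤ C * k ∧ AllLarge k m) ↔
      (∃ C : ℕ, ∀ k : ℕ, 2 ≤ k → ∃ m : ℕ, m ≤ C * k ∧ PosDensity k m)) := by
  have key : (∃ C : ℕ, ∀ k : ℕ, 2 ≤ k → ∃ m : ℕ, m ≤ C * k ∧ PosDensity k m) →
      (∃ C : ℕ, ∀ k : ℕ, 2 ≤ k → ∃ m : ℕ, m ≤ C * k ∧ AllLarge k m) := by
    rintro ⟨C, h⟩
    refine ⟨2 * C + 5, fun k hk => ?_⟩
    obtain ⟨m, hm, hp⟩ := h k hk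
    refine ⟨2 * m + 4 * k + 1, ?_, pos_all (by omega) hp⟩
    have : (2 * C + 5) * k = 2 * (C * k) + 5 * k := by ring
    omega
  refine ⟨fun k hk s hs => ⟨pos_almost hk hs, pos_all hk hs⟩, ⟨?_, ?_⟩, ⟨?_, key⟩⟩
  · rintro ⟨C, h⟩
    refine ⟨C, fun k hk => ?_⟩
    obtain ⟨m, hm, hp⟩ := h k hk
    exact ⟨m, hm, all_almost hp⟩
  · rintro ⟨C, h⟩
    apply key
    refine ⟨C, fun k hk => ?_⟩
    obtain ⟨m, hm, hp⟩ := h k hk
    exact ⟨m, hm, almost_pos hp⟩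
  · rintro ⟨C, h⟩
    refine ⟨C, fun k hk => ?_⟩
    obtain ⟨m, hm, hp⟩ := h k hk
    exact ⟨m, hm, all_pos hp⟩

end Pool.Agent.Results.MP_45c923_nt.PositiveDensity
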