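import Mathlib
import Pool.Agent.U914.WP.KH
import Pool.Agent.U914.WP.HE

/-!
# Waring's problem for almost all polynomials and almost all numbers, with all but one of the `k + 1` variables from
arbitrary sets

Let `k ≥ 2`, let `a > 0` be fixed (for instance `a = 1`), and consider the integer sequence
`⌊f(1)⌋, ⌊f(2)⌋, …` where `f(x) = a x ^ k + θ_{k-1} x ^ (k-1) + … + θ_1 x`. We prove that for almost all
`θ ∈ ℝ ^ (k-1)` the number of representations `n = ⌊f(b₁)⌋ + … + ⌊f(b_k)⌋ + ⌊f(x)⌋` with the variables `b_i`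
restricted to arbitrary finite sets is given by the expected main term in mean square, with a power saving and
uniformly in the sets. So all but one of the variables may be restricted to arbitrary sets with at least
`X ^ (1 - τ)` elements up to `X`, and almost all numbers are still represented, with a power saving.
-/

set_option autoImplicit false

namespace Pool.Agent.Results.MP_45c923_nt.RelativeAlmostAll

open MeasureTheory Filter

/-- **The relative asymptotic formula in mean square.** Let `k ≥ 2` and `a > 0`. There is `τ > 0` such that for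
almost all `θ ∈ ℝ ^ (k-1)` (Lebesgue measure) the polynomial `f(x) = a x ^ k + θ_{k-1} x ^ (k-1) + … + θ_1 x` has
these two properties.

* For all large `N` and all finite sets `B₁, …, B_k` of positive integers `b` with `4 k a b ^ k ≤ N`, the number
  of representations `n = ⌊f(b₁)⌋ + … + ⌊f(b_k)⌋ + ⌊f(x)⌋` with `b_i ∈ B_i` and a positive integer `x`, minus
  `1 / (k a ^ (1/k)) * ∑ (n - ⌊f(b₁)⌋ - … - ⌊f(b_k)⌋) ^ (1/k - 1)` (the sum over all `b_i ∈ B_i`), squared and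
  summed over `N ≤ n ≤ 2 N`, is at most `N ^ (1 + 2/k - τ)`.
* For all sets `A₁, …, A_k` of natural numbers such that each `A_i` has at least `X ^ (1 - τ)` elements in `[1, X]`
  for all large `X`: for all large `X`, all but at most `X ^ (1 - τ)` of the numbers `1 ≤ n ≤ X` are
  `⌊f(b₁)⌋ + … + ⌊f(b_k)⌋ + ⌊f(x)⌋` with positive `b_i ∈ A_i` and a positive integer `x`. -/
theorem result (k : ℕ) (hk : 2 ≤ k) (a : ℝ) (ha : 0 < a) :
    ∃ τ : ℝ, 0 < τ ∧ ∀ᵐ θ : Fin (k - 1) → ℝ,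
      (∀ᶠ N : ℕ in atTop, ∀ B : Fin k → Finset ℕ,
        (∀ i, ∀ b ∈ B i, 0 < b ∧ 4 * k * (a * (b : ℝ) ^ k) ≤ N) →
        ∑ n ∈ Finset.Icc N (2 * N),
          ((({q : (Fin k → ℕ) × ℕ | (∀ i, q.1 i ∈ B i) ∧ 0 < q.2 ∧
            ∑ i, ⌊a * (q.1 i : ℝ) ^ k + ∑ j : Fin (k - 1), θ j * (q.1 i : ℝ) ^ ((j : ℕ) + 1)⌋ +
              ⌊a * (q.2 : ℝ) ^ k + ∑ j : Fin (k - 1), θ j * (q.2 : ℝ) ^ ((j : ℕ) + 1)⌋ = (n : ℤ)}.ncard : ℕ) : ℝ) -
          1 / (k * a ^ ((1 : ℝ) / k)) * ∑ b ∈ Fintype.piFinset B, ((n : ℝ) - ∑ i,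
            (⌊a * (b i : ℝ) ^ k + ∑ j : Fin (k - 1), θ j * (b i : ℝ) ^ ((j : ℕ) + 1)⌋ : ℝ)) ^ ((1 : ℝ) / k - 1)) ^ 2 ≤
          (N : ℝ) ^ (1 + 2 / (k : ℝ) - τ)) ∧
      (∀ A : Fin k → Set ℕ,
        (∀ i, ∀ᶠ X : ℕ in atTop, (X : ℝ) ^ (1 - τ) ≤ ((A i ∩ Set.Icc 1 X).ncard : ℝ)) →
        ∀ᶠ X : ℕ in atTop, ({n : ℕ | 1 ≤ n ∧ n ≤ X ∧ ¬ ∃ b : Fin k → ℕ, ∃ x : ℕ, (∀ i, b i ∈ A i ∧ 0 < b i) ∧ 0 < x ∧
          ∑ i, ⌊a * (b i : ℝ) ^ k + ∑ j : Fin (k - 1), θ j * (b i : ℝ) ^ ((j : ℕ) + 1)⌋ +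
            ⌊a * (x : ℝ) ^ k + ∑ j : Fin (k - 1), θ j * (x : ℝ) ^ ((j : ℕ) + 1)⌋ = (n : ℤ)}.ncard : ℝ) ≤
          (X : ℝ) ^ (1 - τ)) := by
  obtain ⟨d, rfl⟩ : ∃ d, k = d + 1 := ⟨k - 1, by omega⟩
  obtain ⟨δ, hδ0, hδ1, hdom⟩ := Pool.Agent.U914.WP.dom_ae d (by omega) a ha
  have hmv := Pool.Agent.U914.WP.mv_ae d a ha
  have hk0 : (0 : ℝ) < ((d + 1 : ℕ) : ℝ) := by positivity
  refine ⟨δ / (16 * ((d + 1 : ℕ) : ℝ)), by positivity, ?_⟩
  filter_upwards [hdom, hmv] with θ hdom hmv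
  have hC1 : 0 ≤ ∑ j, |θ j| + 1 := by positivity
  refine ⟨?_, ?_⟩
  · have hms := Pool.Agent.U914.WP.rel_ms d (by omega) a ha δ hδ0 hδ1 θ hdom hmv
    have hwC := Pool.Agent.U914.WP.wC_size (d + 1) (d + 1) (by omega) a ha (Pool.Agent.U914.WP.fl d a θ) _ hC1
      (Pool.Agent.U914.WP.sz_fl d a θ) (1 / 4) (by norm_num)
    filter_upwards [tendsto_natCast_atTop_atTop.eventually hms, tendsto_natCast_atTop_atTop.eventually hwC,
      eventually_ge_atTop 1] with N hN hwC hN1 B hB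
    have hN0 : (0 : ℝ) < N := by exact_mod_cast hN1
    have h1 := hN (Finset.Icc N (2 * N)) (fun n hn => by
      rw [Finset.mem_Icc] at hn
      have h2 : (N : ℝ) ≤ n := by exact_mod_cast hn.1
      have h3 : (n : ℝ) ≤ 2 * N := by exact_mod_cast hn.2
      have h4 : (2 : ℝ) ≤ 2 ^ (d + 1) := by
        calc (2 : ℝ) = 2 ^ 1 := by norm_num
          _ ≤ 2 ^ (d + 1) := pow_le_pow_right₀ (by norm_num) (by omega)
      refine ⟨h2, ?_⟩
      nlinarith) B hB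
    have h2 : ∀ n ∈ Finset.Icc N (2 * N), ∑ b ∈ Fintype.piFinset B, Pool.Agent.U914.WP.rh (d + 1) a
        ((n : ℝ) - ∑ i, (Pool.Agent.U914.WP.fl d a θ (b i) : ℝ)) =
        1 / (((d + 1 : ℕ) : ℝ) * a ^ ((1 : ℝ) / ((d + 1 : ℕ) : ℝ))) * ∑ b ∈ Fintype.piFinset B, ((n : ℝ) - ∑ i,
            (⌊a * (b i : ℝ) ^ (d + 1) + ∑ j : Fin d, θ j * (b i : ℝ) ^ ((j : ℕ) + 1)⌋ : ℝ)) ^
              ((1 : ℝ) / ((d + 1 : ℕ) : ℝ) - 1) := by
      intro n hn
      rw [Finset.mem_Icc] at hn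
      rw [Finset.mul_sum]
      apply Finset.sum_congr rfl
      intro b hb
      rw [Fintype.mem_piFinset] at hb
      apply Pool.Agent.U914.WP.rh_eq (d + 1) (by omega) a _ ha
      have h3 := hwC b (fun i => by
        obtain ⟨h4, h5⟩ := hB i _ (hb i)
        refine ⟨h4, ?_⟩
        have h6 : 0 ≤ a * (b i : ℝ) ^ (d + 1) := by positivity
        have h7 : (1 : ℝ) ≤ ((d + 1 : ℕ) : ℝ) := by
          have : 1 ≤ d + 1 := by omega
          exact_mod_cast this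
        nlinarith)
      have h4 : ∑ i, a * (b i : ℝ) ^ (d + 1) ≤ (N : ℝ) / 4 := by
        calc ∑ i, a * (b i : ℝ) ^ (d + 1) ≤ ∑ _i : Fin (d + 1), (N : ℝ) / (4 * ((d + 1 : ℕ) : ℝ)) := by
              apply Finset.sum_le_sum
              intro i _
              rw [le_div_iff₀ (by positivity)]
              have := (hB i _ (hb i)).2
              linarith
          _ = _ := by
              rw [Finset.sum_const, Finset.card_univ, Fintype.card_fin, nsmul_eq_mul]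
              field_simp
      have h5 := (abs_le.1 h3).2
      have h6 : ((Pool.Agent.U914.WP.wC (d + 1) (Pool.Agent.U914.WP.fl d a θ) b : ℤ) : ℝ) =
          ∑ i, (Pool.Agent.U914.WP.fl d a θ (b i) : ℝ) := by
        unfold Pool.Agent.U914.WP.wC
        push_cast
        rfl
      rw [h6] at h5
      have h7 : (N : ℝ) ≤ n := by exact_mod_cast hn.1
      linarith
    have h3 : ∑ n ∈ Finset.Icc N (2 * N), ((Pool.Agent.U914.WP.rC (d + 1) (Pool.Agent.U914.WP.fl d a θ) B n : ℝ) -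
        1 / (((d + 1 : ℕ) : ℝ) * a ^ ((1 : ℝ) / ((d + 1 : ℕ) : ℝ))) * ∑ b ∈ Fintype.piFinset B, ((n : ℝ) - ∑ i,
            (⌊a * (b i : ℝ) ^ (d + 1) + ∑ j : Fin d, θ j * (b i : ℝ) ^ ((j : ℕ) + 1)⌋ : ℝ)) ^
              ((1 : ℝ) / ((d + 1 : ℕ) : ℝ) - 1)) ^ 2 ≤
        (N : ℝ) ^ (1 + 2 / ((d + 1 : ℕ) : ℝ) - δ / (4 * ((d + 1 : ℕ) : ℝ))) := by
      refine le_trans (le_of_eq ?_) h1
      apply Finset.sum_congr rfl
      intro n hn
      rw [h2 n hn]
    refine le_trans h3 ?_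
    apply Real.rpow_le_rpow_of_exponent_le (by exact_mod_cast hN1)
    have h4 : δ / (16 * ((d + 1 : ℕ) : ℝ)) ≤ δ / (4 * ((d + 1 : ℕ) : ℝ)) := by
      apply div_le_div_of_nonneg_left hδ0.le (by positivity)
      linarith
    linarith
  · intro A hA
    exact Pool.Agent.U914.WP.rel_aa d (by omega) a ha δ hδ0 hδ1 θ hdom hmv (δ / (16 * ((d + 1 : ℕ) : ℝ)))
      (by positivity) le_rfl A hA

end Pool.Agent.Results.MP_45c923_nt.RelativeAlmostAll
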